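import Pool.Agent.Lib.helper10.RedBlue

namespace Pool.Agent.Results.MP_ad21dd_lc.NPHard

open Pool.Agent.Cx Finset

/-- red adjacency matrix, blue adjacency matrix, `s`, `t`, `r`, `b` -/
abbrev Inst := List (List Bool) × List (List Bool) × ℕ × ℕ × ℕ × ℕ

/-- a simple graph with red and blue edges and an `s`-`t` cut with at most `r` red and at most `b`
blue edges -/
def RBCut (I : Inst) : Prop :=
  IsGraph I.1 ∧ IsGraph I.2.1 ∧ I.2.1.length = I.1.length ∧
  (∀ i j, ¬ (Entry I.1 i j ∧ Entry I.2.1 i j)) ∧
  I.2.2.1 < I.1.length ∧ I.2.2.2.1 < I.1.length ∧ I.2.2.1 ≠ I.2.2.2.1 ∧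
  ∃ X : Finset ℕ, X ⊆ range I.1.length ∧ I.2.2.1 ∈ X ∧ I.2.2.2.1 ∉ X ∧
    cutCnt I.1 X ≤ I.2.2.2.2.1 ∧ cutCnt I.2.1 X ≤ I.2.2.2.2.2

def Red (M : List (List Bool)) (K u v : ℕ) : Prop := red0 M u v ∨ red0 M v u ∨
  (M.length ≤ u ∧ u < M.length + K ∧ M.length ≤ v ∧ v < M.length + K ∧ u ≠ v)

def Blue (n K u v : ℕ) : Prop := (u = n + K ∧ v < n) ∨ (v = n + K ∧ u < n)

instance (M : List (List Bool)) (K u v : ℕ) : Decidable (Red M K u v) := by
  unfold Red red0; infer_instance

instance (n K u v : ℕ) : Decidable (Blue n K u v) := by unfold Blue; infer_instance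

def build (M : List (List Bool)) (k r K : ℕ) : Inst :=
  (mat (List.range (M.length + K + 1)) fun u v => decide (Red M K u v),
    mat (List.range (M.length + K + 1)) fun u v => decide (Blue M.length K u v),
    M.length + K, M.length, r, M.length - k)

def red (I : List (List Bool) × ℕ) : Inst :=
  build I.1 I.2 (I.2 * (2 * I.1.length + 1 - I.2)) (I.2 * (2 * I.1.length + 1 - I.2) + 3 + 2 * I.1.length)

lemma red_pt : PT red := by
  have h1 : PT (fun p : (List (List Bool) × ℕ × ℕ × ℕ) × ℕ × ℕ =>
      decide (Red p.1.1 p.1.2.2.2 p.2.1 p.2.2)) := PP.decide (by unfold Red red0; fun_prop)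
  have h2 : PT (fun p : (List (List Bool) × ℕ × ℕ × ℕ) × ℕ × ℕ =>
      decide (Blue p.1.1.length p.1.2.2.2 p.2.1 p.2.2)) := PP.decide (by unfold Blue; fun_prop)
  have h3 : PT (fun p : List (List Bool) × ℕ × ℕ × ℕ => build p.1 p.2.1 p.2.2.1 p.2.2.2) :=
    (PT.mat (by fun_prop) h1).pair ((PT.mat (by fun_prop) h2).pair (by fun_prop))
  exact PT.comp (f := fun I : List (List Bool) × ℕ => (I.1, I.2, I.2 * (2 * I.1.length + 1 - I.2),
    I.2 * (2 * I.1.length + 1 - I.2) + 3 + 2 * I.1.length)) h3 (by fun_prop)

lemma correct {M : List (List Bool)} {k r K : ℕ} (hM : IsGraph M) (hk : k ≤ M.length)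
    (hr : r = k * (2 * M.length + 1 - k)) (hK : K = r + 3 + 2 * M.length) :
    HasClq M k ↔ RBCut (build M k r K) := by
  have cr : ∀ X : Finset ℕ, (∀ v ∈ X, v < M.length ∨ M.length + K ≤ v) →
      cutCnt (build M k r K).1 X = (bad M (X.filter (· < M.length))).card := by
    intro X hX
    refine cut_eq_bad hM (by simp [build]; omega) (fun v hv => by have := hX v hv; omega) ?_
    intro u hu v hv hv'
    have := hX u hu
    simp only [build, entry_mat, mat_length, List.length_range] at hv ⊢
    refine ⟨fun ⟨_, _, h⟩ => ?_, fun h => ⟨by have := h.1; omega, hv, Or.inl h⟩⟩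
    rcases h with h | ⟨h1, ⟨h2, h3⟩ | h⟩ | h
    · exact h
    · exact ⟨h2, Or.inl ⟨h1, hM.2.2 _ _ h3⟩⟩
    · omega
    · omega
  have cb : ∀ X : Finset ℕ, M.length + K ∈ X → (∀ v ∈ X, v < M.length + K + 1) →
      cutCnt (build M k r K).2.1 X + (X.filter (· < M.length)).card = M.length := by
    intro X h1 h2
    refine cut_blue h1 (by simp [build]; omega) fun u hu v hv hv' => ?_
    have := h2 u hu
    have : v ≠ M.length + K := by rintro rfl; exact hv' h1
    simp only [build, entry_mat, mat_length, List.length_range, Blue] at hv ⊢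
    omega
  constructor
  · rintro ⟨S, h1, rfl, h3⟩
    have hf : (insert (M.length + K) S).filter (· < M.length) = S := by
      ext v; simp only [mem_filter, mem_insert]; have := h1 v; constructor
      · rintro ⟨h | h, h'⟩
        · omega
        · exact h
      · tauto
    refine ⟨⟨mat_row _ _, fun i => ?_, fun i j => ?_⟩, ⟨mat_row _ _, fun i => ?_, fun i j => ?_⟩,
      by simp [build], fun i j => ?_, by simp [build], by simp [build], by simp [build]; omega,
      insert (M.length + K) S, fun v hv => ?_, by simp [build], ?_, ?_, ?_⟩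
    · have : ent M i i = false := Bool.eq_false_iff.2 (hM.2.1 i)
      simp only [build, entry_mat, Red, red0, this]; simp; omega
    · simp only [build, entry_mat, Red]; tauto
    · simp only [build, entry_mat, Blue]; omega
    · simp only [build, entry_mat, Blue]; omega
    · simp only [build, entry_mat, Blue, Red, red0]; omega
    · have := h1 v
      simp only [build, mem_insert, mem_range, mat_length, List.length_range] at *
      rcases hv with h | h
      · omega
      · have := this h; omega
    · simp only [build, mem_insert, not_or]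
      exact ⟨by omega, fun h => by have := h1 _ h; omega⟩
    · rw [cr _ (fun v hv => by
        rcases mem_insert.1 hv with h | h
        · omega
        · exact Or.inl (h1 v h)), hf]
      exact hr ▸ bad_le h1 h3
    · have := cb (insert (M.length + K) S) (by simp) (fun v hv => by
        rcases mem_insert.1 hv with h | h
        · omega
        · have := h1 v h; omega)
      rw [hf] at this
      simp only [build] at *; omega
  · rintro ⟨-, -, -, -, -, -, -, X, h1, h2, h3, h4, h5⟩
    have h6 : ∀ v ∈ X, v < M.length + K + 1 := fun v hv => by simpa [build] using h1 hv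
    have h7 : ∀ v ∈ X, v < M.length ∨ M.length + K ≤ v := by
      intro v hv
      by_contra hh
      have := blob (M := (build M k r K).1) M.length K v M.length (by simp [build]) hv
        (by simp [build]) h3 (fun j hj a b => by
          have : M.length + j ≠ v := by rintro rfl; exact a hv
          simp only [build, entry_mat, Red]; omega) (fun j hj a b => by
          have : j ≠ 0 := by rintro rfl; exact h3 a
          simp only [build, entry_mat, Red]; omega)
      simp only [build] at *; omega
    have h8 := cb X h2 h6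
    rw [cr X h7] at h4
    exact clq_of_bad hM (fun u hu => (mem_filter.1 hu).2) (by simp only [build] at *; omega)
      (hr ▸ h4)

theorem result : NPHard (Lang RBCut) :=
  (Hard.of_clique red_pt fun _ _ hM _ hk => correct hM hk rfl rfl).npHard

end Pool.Agent.Results.MP_ad21dd_lc.NPHard
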